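import Pool.Agent.H81.ND.KL

/-!
The cases of the step (U) used for the diagonal `d = k + 2`, and the exchange lemma.
-/

set_option linter.unusedSectionVars false

open Module Submodule

namespace H15

variable {ι : Type*} [Fintype ι] {E : Type*} [AddCommGroup E] [Module ℝ E]
  [FiniteDimensional ℝ E]
variable {v : ι → E} {X Y X' Y' A B : Set ι} {m : ℕ}

/-- T4a: KL, cosimple case, `j = 2`: `D = k+3`, `N = 3k+2`, FC(k). -/
theorem kl_cos [Nonempty ι] {k : ℕ} (hc : Cosimple v) (hD : finrank ℝ E = k + 3)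
    (hN : Fintype.card ι = 3 * k + 2)
    (hfc : ∀ G : Submodule ℝ E, finrank ℝ G ≤ k + 1 → {i | v i ∈ G}.ncard ≤ k + finrank ℝ G)
    (G : Submodule ℝ E) (hG2 : 2 ≤ finrank ℝ G) (hGk : finrank ℝ G ≤ k)
    (hG : ∀ P Q : Set ι, SVec (G.mkQ ∘ v) P Q →
      finrank ℝ G + finrank ℝ (LL (G.mkQ ∘ v) P Q) ≤ k) : False := by
  refine KL (k := k) (r := k + 1) hc hfc (by omega) (by omega) (by omega) G hG2 hGk ?_
  intro P Q h
  have := hG P Q h
  omega

/-- T4b: KL, relaxed `j = 1`: `D = k+2`, `N = 3k+1`, FC only for rank `≤ k`. -/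
theorem kl_rel [Nonempty ι] {k : ℕ} (hc : Cosimple v) (hD : finrank ℝ E = k + 2)
    (hN : Fintype.card ι = 3 * k + 1)
    (hfc : ∀ G : Submodule ℝ E, finrank ℝ G ≤ k → {i | v i ∈ G}.ncard ≤ k + finrank ℝ G)
    (G : Submodule ℝ E) (hG2 : 2 ≤ finrank ℝ G) (hGk : finrank ℝ G ≤ k)
    (hG : ∀ P Q : Set ι, SVec (G.mkQ ∘ v) P Q →
      finrank ℝ G + finrank ℝ (LL (G.mkQ ∘ v) P Q) ≤ k) : False := by
  refine KL (k := k) (r := k) hc hfc le_rfl (by omega) (by omega) G hG2 hGk ?_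
  intro P Q h
  have := hG P Q h
  omega

/-- a basis of `F` with two elements outside the hyperplane `H` has no coordinate which
vanishes on `H ⊓ F`. -/
theorem lift_of_two (F H : Submodule ℝ E) (hH : finrank ℝ H + 1 = finrank ℝ E)
    (hY : LinearIndepOn ℝ v Y) (hYF : sp v Y = F) {y₁ y₂ : ι} (h₁ : y₁ ∈ Y) (h₂ : y₂ ∈ Y)
    (hne : y₁ ≠ y₂) (h₁H : v y₁ ∉ H) (h₂H : v y₂ ∉ H) :
    ∀ y ∈ Y, ∃ g ∈ H ⊓ F, g ∉ sp v (Y \ {y}) := by
  intro y hy
  by_contra hcon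
  push Not at hcon
  have hle : H ⊓ F ≤ sp v (Y \ {y}) := fun g hg => hcon g hg
  have h1 := Submodule.finrank_sup_add_finrank_inf_eq H F
  have h2 := Submodule.finrank_le (H ⊔ F)
  have h3 : finrank ℝ (sp v (Y \ {y})) = Y.ncard - 1 := by
    rw [finrank_sp_eq (hY.mono Set.sdiff_subset), Set.ncard_sdiff_singleton_of_mem hy]
  have h4 : finrank ℝ F = Y.ncard := by rw [← hYF, finrank_sp_eq hY]
  have h5 : 0 < Y.ncard := (Set.ncard_pos (Set.toFinite _)).2 ⟨y, hy⟩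
  have h6 : H ⊓ F = sp v (Y \ {y}) := by
    refine Submodule.eq_of_le_of_finrank_le hle ?_
    omega
  have h7 : ∀ i ∈ Y, i ≠ y → v i ∈ H := by
    intro i hi hiy
    have : v i ∈ H ⊓ F := by
      rw [h6]
      exact mem_sp ⟨hi, hiy⟩
    exact this.1
  by_cases h8 : y₁ = y
  · exact h₂H (h7 y₂ h₂ (by rw [← h8]; exact hne.symm))
  · exact h₁H (h7 y₁ h₁ h8)

/-- exchange into a basis, keeping a given element. -/
theorem exists_swap (F : Submodule ℝ E) (hY : LinearIndepOn ℝ v Y) (hYF : sp v Y = F)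
    {y₀ z : ι} (hy₀ : y₀ ∈ Y) (hzY : z ∉ Y) (hzF : v z ∈ F) (hz : v z ∉ span ℝ {v y₀}) :
    ∃ Y' : Set ι, LinearIndepOn ℝ v Y' ∧ sp v Y' = F ∧ y₀ ∈ Y' ∧ z ∈ Y' ∧ Y' ⊆ insert z Y := by
  classical
  obtain ⟨f, hf⟩ := exists_coord hY
  rw [← hYF] at hzF
  obtain ⟨a, ha, hs⟩ := mem_sp_iff.1 hzF
  obtain ⟨y₁, hy₁Y, hy₁, ha₁⟩ : ∃ y₁ ∈ Y, y₁ ≠ y₀ ∧ a y₁ ≠ 0 := by
    by_contra hcon
    push Not at hcon
    apply hz
    have h1 : ∑ j, a j • v j = a y₀ • v y₀ := by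
      refine Finset.sum_eq_single y₀ (fun i _ hi => ?_) (by simp)
      by_cases hiY : i ∈ Y
      · rw [hcon i hiY hi, zero_smul]
      · rw [ha i hiY, zero_smul]
    rw [← hs, h1]
    exact Submodule.smul_mem _ _ (mem_span_singleton_self _)
  have hnot : v z ∉ sp v (Y \ {y₁}) := by
    intro h
    obtain ⟨b, hb, hbs⟩ := mem_sp_iff.1 h
    have h1 := hf a ha y₁
    have h2 := hf b (fun i hi => hb i (fun h' => hi h'.1)) y₁
    rw [hs] at h1
    rw [hbs] at h2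
    have h3 : b y₁ = 0 := hb y₁ (by simp)
    exact ha₁ (by rw [← h1, h2, h3])
  refine ⟨insert z (Y \ {y₁}), (hY.mono Set.sdiff_subset).insert hnot, ?_,
    Set.mem_insert_of_mem _ ⟨hy₀, hy₁.symm⟩, Set.mem_insert _ _,
    Set.insert_subset_insert Set.sdiff_subset⟩
  have h5 : 0 < Y.ncard := (Set.ncard_pos (Set.toFinite _)).2 ⟨y₀, hy₀⟩
  refine Submodule.eq_of_le_of_finrank_le ?_ ?_
  · rw [sp_le]
    rintro i (hi | hi)
    · rw [hi, ← hYF]; exact hzF
    · rw [← hYF]; exact mem_sp hi.1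
  · have hzn : z ∉ Y \ {y₁} := fun h => hzY h.1
    rw [finrank_sp_eq ((hY.mono Set.sdiff_subset).insert hnot),
      Set.ncard_insert_of_notMem hzn, Set.ncard_sdiff_singleton_of_mem hy₁Y, ← hYF,
      finrank_sp_eq hY]
    omega

/-- T4c: exchange lemma. `H` a hyperplane, at least three elements outside `H`,
all of them in `F`; multiplicities at most 2. -/
theorem exchange (F H : Submodule ℝ E) (hH : finrank ℝ H + 1 = finrank ℝ E)
    (hout : ∀ i, v i ∉ H → v i ∈ F) (h3 : 3 ≤ {i | v i ∉ H}.ncard)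
    (hmult : ∀ G : Submodule ℝ E, finrank ℝ G ≤ 1 → {i | v i ∈ G}.ncard ≤ 2)
    {X Y : Set ι} (hd : Disjoint X Y) (hX : LinearIndepOn ℝ v X) (hY : LinearIndepOn ℝ v Y)
    (hXF : sp v X = F) (hYF : sp v Y = F) :
    ∃ X' Y' : Set ι, Disjoint X' Y' ∧ LinearIndepOn ℝ v X' ∧ LinearIndepOn ℝ v Y' ∧
      sp v X' = F ∧ sp v Y' = F ∧ ∀ y ∈ Y', ∃ g ∈ H ⊓ F, g ∉ sp v (Y' \ {y}) := by
  classical
  -- an element outside `H` in each basis
  have hFH : ¬ F ≤ H := by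
    intro h
    obtain ⟨i, hi⟩ : {i | v i ∉ H}.Nonempty := by
      rw [← Set.ncard_pos (Set.toFinite _)]; omega
    exact hi (h (hout i hi))
  have hbase : ∀ Z : Set ι, sp v Z = F → ∃ z ∈ Z, v z ∉ H := by
    intro Z hZ
    by_contra hcon
    push Not at hcon
    apply hFH
    rw [← hZ, sp_le]
    exact hcon
  obtain ⟨x₀, hx₀X, hx₀⟩ := hbase X hXF
  obtain ⟨y₀, hy₀Y, hy₀⟩ := hbase Y hYF
  by_cases hY2 : ∃ y ∈ Y, y ≠ y₀ ∧ v y ∉ H
  · obtain ⟨y, hyY, hne, hy⟩ := hY2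
    exact ⟨X, Y, hd, hX, hY, hXF, hYF,
      lift_of_two F H hH hY hYF hyY hy₀Y hne hy hy₀⟩
  by_cases hX2 : ∃ x ∈ X, x ≠ x₀ ∧ v x ∉ H
  · obtain ⟨x, hxX, hne, hx⟩ := hX2
    exact ⟨Y, X, hd.symm, hY, hX, hYF, hXF,
      lift_of_two F H hH hX hXF hxX hx₀X hne hx hx₀⟩
  push Not at hY2 hX2
  obtain ⟨z, hzH, hz⟩ : ∃ z, v z ∉ H ∧ z ∉ ({x₀, y₀} : Set ι) := by
    by_contra hcon
    push Not at hcon
    have h4 : {i | v i ∉ H} ⊆ ({x₀, y₀} : Set ι) := fun i hi => hcon i hi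
    have h5 := Set.ncard_le_ncard h4 (Set.toFinite _)
    have h6 := Set.ncard_insert_le x₀ ({y₀} : Set ι)
    rw [Set.ncard_singleton] at h6
    omega
  have hzx : z ≠ x₀ := fun h => hz (by rw [h]; simp)
  have hzy : z ≠ y₀ := fun h => hz (by rw [h]; simp)
  have hzX : z ∉ X := fun h => hzH (hX2 z h hzx)
  have hzY : z ∉ Y := fun h => hzH (hY2 z h hzy)
  have hzF := hout z hzH
  by_cases hpy : v z ∈ span ℝ {v y₀}
  · by_cases hpx : v z ∈ span ℝ {v x₀}
    · exfalso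
      have hz0 : v z ≠ 0 := fun h => hzH (by rw [h]; exact zero_mem _)
      have hG : finrank ℝ (span ℝ {v z}) ≤ 1 := by
        have := finrank_span_le_card (R := ℝ) ({v z} : Set E)
        simpa using this
      have hback : ∀ i, v z ∈ span ℝ {v i} → v i ∈ span ℝ {v z} := by
        intro i hi
        obtain ⟨c, hc⟩ := Submodule.mem_span_singleton.1 hi
        have hc0 : c ≠ 0 := by
          rintro rfl
          rw [zero_smul] at hc
          exact hz0 hc.symm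
        rw [Submodule.mem_span_singleton]
        exact ⟨c⁻¹, by rw [← hc, smul_smul, inv_mul_cancel₀ hc0, one_smul]⟩
      have hxy : x₀ ≠ y₀ := by
        rintro rfl
        exact Set.disjoint_left.1 hd hx₀X hy₀Y
      have h4 : ({z, x₀, y₀} : Set ι) ⊆ {i | v i ∈ span ℝ {v z}} := by
        rintro i (rfl | rfl | hi)
        · exact mem_span_singleton_self _
        · exact hback _ hpx
        · have hi' : i = y₀ := hi
          subst hi'
          exact hback _ hpy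
      have h5 := Set.ncard_le_ncard h4 (Set.toFinite _)
      have h6 := hmult _ hG
      have h7 : ({z, x₀, y₀} : Set ι).ncard = 3 := by
        rw [Set.ncard_insert_of_notMem (by simp [hzx, hzy]), Set.ncard_pair hxy]
      omega
    · obtain ⟨X', h1, h2, h4, h5, h6⟩ := exists_swap F hX hXF hx₀X hzX hzF hpx
      refine ⟨Y, X', ?_, hY, h1, hYF, h2,
        lift_of_two F H hH h1 h2 h5 h4 hzx hzH hx₀⟩
      refine Set.disjoint_left.2 fun i hiY hiX' => ?_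
      rcases h6 hiX' with rfl | h7
      · exact hzY hiY
      · exact Set.disjoint_left.1 hd h7 hiY
  · obtain ⟨Y', h1, h2, h4, h5, h6⟩ := exists_swap F hY hYF hy₀Y hzY hzF hpy
    refine ⟨X, Y', ?_, hX, h1, hXF, h2,
      lift_of_two F H hH h1 h2 h5 h4 hzy hzH hy₀⟩
    refine Set.disjoint_left.2 fun i hiX hiY' => ?_
    rcases h6 hiY' with rfl | h7
    · exact hzX hiX
    · exact Set.disjoint_left.1 hd hiX h7

end H15
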