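import Pool.Agent.H15.FamSmall

/-!
The lifting lemma G*: a flat `F` with a basis `Y` and a disjoint independent set `X`, such that
the dependencies of the quotient lift to sums with all coordinates different from zero.
-/

set_option linter.unusedSectionVars false

open Module Submodule

namespace H15

variable {ι : Type*} [Fintype ι] {E : Type*} [AddCommGroup E] [Module ℝ E]
  [FiniteDimensional ℝ E]
variable {v : ι → E} {X Y X' Y' A B : Set ι} {m : ℕ}

/-- small perturbations do not change the signs of the nonzero entries. -/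
theorem eventually_sign (c d : ι → ℝ) :
    ∀ᶠ ε in nhdsWithin (0:ℝ) (Set.Ioi 0), ∀ i, (0 < c i → 0 < c i + ε * d i) ∧
      (c i < 0 → c i + ε * d i < 0) := by
  rw [Filter.eventually_all]
  intro i
  have hcont : Filter.Tendsto (fun ε : ℝ => c i + ε * d i) (nhdsWithin (0:ℝ) (Set.Ioi 0))
      (nhds (c i + 0 * d i)) := by
    apply Filter.Tendsto.mono_left _ nhdsWithin_le_nhds
    exact (Continuous.tendsto (by fun_prop) 0)
  rw [zero_mul, add_zero] at hcont
  rcases lt_trichotomy (c i) 0 with h | h | h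
  · filter_upwards [hcont.eventually (gt_mem_nhds h)] with ε hε
    exact ⟨fun h' => absurd h' (not_lt.2 h.le), fun _ => hε⟩
  · refine Filter.Eventually.of_forall fun ε => ⟨fun h' => ?_, fun h' => ?_⟩
    · exact absurd h' (by rw [h]; exact lt_irrefl _)
    · exact absurd h' (by rw [h]; exact lt_irrefl _)
  · filter_upwards [hcont.eventually (lt_mem_nhds h)] with ε hε
    exact ⟨fun _ => hε, fun h' => absurd h' (not_lt.2 h.le)⟩

theorem mkQ_eq_zero (F : Submodule ℝ E) (x : E) : F.mkQ x = 0 ↔ x ∈ F := by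
  rw [← LinearMap.mem_ker, Submodule.ker_mkQ]

/-- the rank of a family which contains a spanning set of `F`. -/
theorem finrank_sp_le_quot (F : Submodule ℝ E) {Z Z' : Set ι}
    (hZ : ∀ i ∈ Z, v i ∉ F → i ∈ Z') :
    finrank ℝ (sp v Z) ≤ finrank ℝ F + finrank ℝ (sp (F.mkQ ∘ v) Z') := by
  have h1 := LinearMap.finrank_range_add_finrank_ker (F.mkQ.domRestrict (sp v Z))
  have h2 : LinearMap.range (F.mkQ.domRestrict (sp v Z)) ≤ sp (F.mkQ ∘ v) Z' := by
    rw [LinearMap.range_domRestrict, Submodule.map_le_iff_le_comap, sp_le]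
    intro i hi
    rw [Submodule.mem_comap]
    by_cases h : v i ∈ F
    · rw [(mkQ_eq_zero F _).2 h]
      exact zero_mem _
    · exact mem_sp (v := F.mkQ ∘ v) (hZ i hi h)
  have h3 := Submodule.finrank_mono h2
  have h4 : finrank ℝ (LinearMap.ker (F.mkQ.domRestrict (sp v Z))) ≤ finrank ℝ F := by
    let g : LinearMap.ker (F.mkQ.domRestrict (sp v Z)) →ₗ[ℝ] F :=
      LinearMap.codRestrict _ ((sp v Z).subtype.comp
        (LinearMap.ker (F.mkQ.domRestrict (sp v Z))).subtype) (fun x => by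
          have := x.2
          rw [LinearMap.mem_ker, LinearMap.domRestrict_apply, mkQ_eq_zero] at this
          exact this)
    exact LinearMap.finrank_le_finrank_of_injective (f := g) (by
      intro x y hxy
      have := congrArg (fun z : F => (z : E)) hxy
      exact Subtype.ext (Subtype.ext this))
  omega

/-- **G*.** -/
theorem gstar (hb : Bdd v m) (F : Submodule ℝ E)
    (hXF : ∀ i ∈ X, v i ∈ F) (hd : Disjoint X Y)
    (hX : LinearIndepOn ℝ v X) (hY : LinearIndepOn ℝ v Y) (hYF : sp v Y = F)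
    (hlift : ∀ y ∈ Y, ∃ g ∈ sp v {i | v i ∉ F} ⊓ F, g ∉ sp v (Y \ {y}))
    {P Q : Set ι} (hPQ : SVec (F.mkQ ∘ v) P Q) :
    X.ncard + finrank ℝ (LL (F.mkQ ∘ v) P Q) ≤ m := by
  classical
  obtain ⟨c0, hc0, hc1, hc2⟩ := hPQ
  obtain ⟨f, hf⟩ := exists_coord hY
  have hYm : ∀ i ∈ Y, v i ∈ F := fun i hi => by rw [← hYF]; exact mem_sp hi
  -- the dependency outside `F`
  let c : ι → ℝ := fun i => if v i ∈ F then 0 else c0 i
  have hcF : ∑ i, c i • v i ∈ F := by
    rw [← mkQ_eq_zero, map_sum, ← hc0]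
    refine Finset.sum_congr rfl fun i _ => ?_
    rw [map_smul]
    change c i • F.mkQ (v i) = c0 i • F.mkQ (v i)
    by_cases hi : v i ∈ F
    · rw [(mkQ_eq_zero F _).2 hi, smul_zero, smul_zero]
    · simp only [c, hi, if_false]
  -- coordinates
  have hcoord : ∀ x ∈ F, ∀ y ∈ Y, f y x = 0 → x ∈ sp v (Y \ {y}) := by
    intro x hx y hy h0
    rw [← hYF] at hx
    obtain ⟨a, ha, hs⟩ := mem_sp_iff.1 hx
    refine mem_sp_iff.2 ⟨a, fun i hi => ?_, hs⟩
    by_cases hiY : i ∈ Y
    · have : i = y := by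
        by_contra hne
        exact hi ⟨hiY, hne⟩
      rw [this, ← hf a ha y, hs, h0]
    · exact ha i hiY
  -- a generic lift
  let U : Submodule ℝ E := sp v {i | v i ∉ F} ⊓ F
  obtain ⟨z, hz⟩ : ∃ z : U, ∀ y : Y, z ∉ LinearMap.ker ((f y).comp U.subtype) := by
    refine exists_generic (κ := Y) (fun y => LinearMap.ker ((f y).comp U.subtype)) ?_
    rintro ⟨y, hy⟩ htop
    obtain ⟨g, hg, hg'⟩ := hlift y hy
    apply hg'
    have h1 : (⟨g, hg⟩ : U) ∈ LinearMap.ker ((f y).comp U.subtype) := by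
      rw [htop]; trivial
    exact hcoord g hg.2 y hy h1
  obtain ⟨d, hd0, hds⟩ := mem_sp_iff.1 z.2.1
  have hgen := eventually_generic (κ := Y) (fun y => LinearMap.ker (f y)) (∑ i, c i • v i)
    (z : E) (fun y => by
      have := hz y
      exact this)
  obtain ⟨ε, h1, h2⟩ := (hgen.and (eventually_sign c d)).exists
  let c1 : ι → ℝ := fun i => c i + ε * d i
  have hc1s : ∑ i, c1 i • v i = ∑ i, c i • v i + ε • (z : E) := by
    simp only [c1, add_smul, mul_smul, Finset.sum_add_distrib, ← Finset.smul_sum, hds]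
  have hγF : ∑ i, c1 i • v i ∈ F := by
    rw [hc1s]
    exact F.add_mem hcF (F.smul_mem _ z.2.2)
  have hc1F : ∀ i, v i ∈ F → c1 i = 0 := by
    intro i hi
    have e1 : c i = 0 := by simp only [c, hi, if_true]
    have e2 : d i = 0 := hd0 i (fun h => h hi)
    change c i + ε * d i = 0
    rw [e1, e2]; ring
  obtain ⟨a, ha, has⟩ := mem_sp_iff.1 (hYF ▸ hγF : ∑ i, c1 i • v i ∈ sp v Y)
  have haY : ∀ y ∈ Y, a y ≠ 0 := by
    intro y hy h0
    have e1 := hf a ha y
    rw [has, h0, hc1s] at e1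
    exact h1 ⟨y, hy⟩ e1
  let c2 : ι → ℝ := fun i => c1 i - a i
  have hS2 : SVec v {i | 0 < c2 i} {i | c2 i < 0} := by
    refine ⟨c2, ?_, fun _ => Iff.rfl, fun _ => Iff.rfl⟩
    simp only [c2, sub_smul, Finset.sum_sub_distrib, has, sub_self]
  set P2 : Set ι := {i | 0 < c2 i} with hP2
  set Q2 : Set ι := {i | c2 i < 0} with hQ2
  have hYcov : ∀ y ∈ Y, y ∈ P2 ∨ y ∈ Q2 := by
    intro y hy
    have e1 : c2 y = - a y := by
      change c1 y - a y = - a y
      rw [hc1F y (hYm y hy)]; ring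
    rcases lt_or_gt_of_ne (haY y hy) with h | h
    · exact Or.inl (by change 0 < c2 y; rw [e1]; linarith)
    · exact Or.inr (by change c2 y < 0; rw [e1]; linarith)
  have hXn : ∀ x ∈ X, x ∉ P2 ∧ x ∉ Q2 := by
    intro x hx
    have e1 : c2 x = 0 := by
      change c1 x - a x = 0
      rw [hc1F x (hXF x hx), ha x (fun h => Set.disjoint_left.1 hd hx h)]; ring
    exact ⟨fun h => by rw [hP2, Set.mem_ofPred_eq, e1] at h; exact lt_irrefl _ h,
      fun h => by rw [hQ2, Set.mem_ofPred_eq, e1] at h; exact lt_irrefl _ h⟩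
  have hout : ∀ i, v i ∉ F → c2 i = c1 i := by
    intro i hi
    change c1 i - a i = c1 i
    rw [ha i (fun h => hi (hYm i h)), sub_zero]
  -- the signed vector of the quotient
  set P1 : Set ι := {i | 0 < c1 i} with hP1
  set Q1 : Set ι := {i | c1 i < 0} with hQ1
  have hLL : LL (F.mkQ ∘ v) P Q ≤ LL (F.mkQ ∘ v) P1 Q1 := by
    refine inf_le_inf ?_ ?_
    · rw [sp_le]
      intro i hi
      by_cases h : v i ∈ F
      · change F.mkQ (v i) ∈ _
        rw [(mkQ_eq_zero F _).2 h]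
        exact zero_mem _
      · refine mem_sp (v := F.mkQ ∘ v) ?_
        have e1 : c i = c0 i := by simp only [c, h, if_false]
        exact (h2 i).1 (by rw [e1]; exact (hc1 i).2 hi)
    · rw [sp_le]
      intro i hi
      by_cases h : v i ∈ F
      · change F.mkQ (v i) ∈ _
        rw [(mkQ_eq_zero F _).2 h]
        exact zero_mem _
      · refine mem_sp (v := F.mkQ ∘ v) ?_
        have e1 : c i = c0 i := by simp only [c, h, if_false]
        exact (h2 i).2 (by rw [e1]; exact (hc2 i).2 hi)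
  -- the splitting of `X`
  have hsup : sp v (P2 ∩ Y) ⊔ sp v (Q2 ∩ Y) = F := by
    rw [← sp_union, ← hYF]
    congr 1
    ext i
    constructor
    · rintro (h | h) <;> exact h.2
    · intro hi
      rcases hYcov i hi with h | h
      · exact Or.inl ⟨h, hi⟩
      · exact Or.inr ⟨h, hi⟩
  obtain ⟨σ, hσ⟩ := exists_split (sp v (P2 ∩ Y)) (sp v (Q2 ∩ Y)) (fun i : X => v i) hX
    (fun i => by rw [hsup]; exact hXF i i.2)
  rw [hsup] at hσ
  have hcardX : Fintype.card X = X.ncard := by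
    rw [← Nat.card_eq_fintype_card]; rfl
  rw [hcardX] at hσ
  let S1 : Set ι := Subtype.val '' (σ : Set X)
  let S2 : Set ι := Subtype.val '' ((σ : Set X)ᶜ)
  have hS1X : S1 ⊆ X := by rintro _ ⟨j, _, rfl⟩; exact j.2
  have hS2X : S2 ⊆ X := by rintro _ ⟨j, _, rfl⟩; exact j.2
  have hS12 : ∀ i ∈ S2, i ∉ S1 := by
    rintro _ ⟨j, hj, rfl⟩ ⟨j', hj', heq⟩
    rw [Subtype.ext heq] at hj'
    exact hj hj'
  let e : ι → ℝ := fun i => if i ∈ S1 then 1 else if i ∈ S2 then -1 else 0
  have heX : ∀ i, i ∉ X → e i = 0 := by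
    intro i hi
    have e1 : i ∉ S1 := fun h => hi (hS1X h)
    have e2 : i ∉ S2 := fun h => hi (hS2X h)
    simp only [e, e1, e2, if_false]
  have hFle : F ≤ sp v (P2 ∪ Q2) := by
    rw [← hYF, sp_le]
    intro i hi
    exact mem_sp (hYcov i hi)
  have hS3 := hS2.ext e (by
    refine Submodule.sum_mem _ fun i _ => ?_
    by_cases hi : i ∈ X
    · exact Submodule.smul_mem _ _ (hFle (hXF i hi))
    · rw [heX i hi, zero_smul]
      exact zero_mem _)
  set P3 := P2 ∪ {i | 0 < e i ∧ i ∉ Q2} with hP3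
  set Q3 := Q2 ∪ {i | e i < 0 ∧ i ∉ P2} with hQ3
  have hP : sp v (P2 ∩ Y) ⊔ span ℝ ((fun i : X => v i) '' (σ : Set X)) ≤ sp v P3 := by
    refine sup_le (sp_mono fun i hi => Or.inl hi.1) ?_
    rw [span_le]
    rintro _ ⟨j, hj, rfl⟩
    refine mem_sp (Or.inr ⟨?_, (hXn j j.2).2⟩)
    have e1 : (j : ι) ∈ S1 := ⟨j, hj, rfl⟩
    simp only [e, e1, if_true]
    norm_num
  have hN : sp v (Q2 ∩ Y) ⊔ span ℝ ((fun i : X => v i) '' ((σ : Set X)ᶜ)) ≤ sp v Q3 := by
    refine sup_le (sp_mono fun i hi => Or.inl hi.1) ?_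
    rw [span_le]
    rintro _ ⟨j, hj, rfl⟩
    refine mem_sp (Or.inr ⟨?_, (hXn j j.2).1⟩)
    have e2 : (j : ι) ∈ S2 := ⟨j, hj, rfl⟩
    have e1 : (j : ι) ∉ S1 := hS12 _ e2
    simp only [e, e1, e2, if_true, if_false]
    norm_num
  have hsubF : ∀ τ : Set X, span ℝ ((fun i : X => v i) '' τ) ≤ F := by
    intro τ
    rw [span_le]
    rintro _ ⟨j, _, rfl⟩
    exact hXF j j.2
  have hPF : sp v (P2 ∩ Y) ⊔ span ℝ ((fun i : X => v i) '' (σ : Set X)) ≤ F :=
    sup_le (by rw [← hsup]; exact le_sup_left) (hsubF _)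
  have hNF : sp v (Q2 ∩ Y) ⊔ span ℝ ((fun i : X => v i) '' ((σ : Set X)ᶜ)) ≤ F :=
    sup_le (by rw [← hsup]; exact le_sup_right) (hsubF _)
  have hd1 := finrank_add_le_of_quot F.mkQ _ (sp v P3) (sp (F.mkQ ∘ v) P1) hP
    (fun x hx => (mkQ_eq_zero F x).2 (hPF hx)) (by
      rw [sp_le]
      intro i hi
      by_cases h : v i ∈ F
      · change F.mkQ (v i) ∈ _
        rw [(mkQ_eq_zero F _).2 h]; exact zero_mem _
      · refine Submodule.mem_map_of_mem (mem_sp (Or.inl ?_))
        change 0 < c2 i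
        rw [hout i h]; exact hi)
  have hd2 := finrank_add_le_of_quot F.mkQ _ (sp v Q3) (sp (F.mkQ ∘ v) Q1) hN
    (fun x hx => (mkQ_eq_zero F x).2 (hNF hx)) (by
      rw [sp_le]
      intro i hi
      by_cases h : v i ∈ F
      · change F.mkQ (v i) ∈ _
        rw [(mkQ_eq_zero F _).2 h]; exact zero_mem _
      · refine Submodule.mem_map_of_mem (mem_sp (Or.inl ?_))
        change c2 i < 0
        rw [hout i h]; exact hi)
  have hd3 := finrank_sp_le_quot (v := v) F (Z := P3 ∪ Q3) (Z' := P1 ∪ Q1) (by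
    intro i hi hiF
    have hiX : i ∉ X := fun h => hiF (hXF i h)
    rcases hi with (h | h) | (h | h)
    · left
      change 0 < c1 i
      rw [← hout i hiF]; exact h
    · exact absurd h.1 (by rw [heX i hiX]; exact lt_irrefl _)
    · right
      change c1 i < 0
      rw [← hout i hiF]; exact h
    · exact absurd h.1 (by rw [heX i hiX]; exact lt_irrefl _))
  have h3 := finrank_LL (v := v) (X := P3) (Y := Q3)
  have h4 := finrank_LL (v := F.mkQ ∘ v) (X := P1) (Y := Q1)
  have h5 := hb _ _ hS3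
  have h6 := Submodule.finrank_mono hLL
  omega

end H15
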