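import Pool.Agent.H15.FamSmall

/-!
The step (U): a flat of rank at least two which adds its rank to every signed vector of the
quotient forces a signed vector of large rank.
-/

set_option linter.unusedSectionVars false

open Module Submodule

namespace H15

variable {ι : Type*} [Fintype ι] {E : Type*} [AddCommGroup E] [Module ℝ E]
  [FiniteDimensional ℝ E]
variable {v : ι → E} {X Y X' Y' A B : Set ι} {m : ℕ}

/-- the two kinds of small elements and the zero elements are in `L`. -/
theorem MaxFrame.ncard_L' [Nonempty ι] (hF : MaxFrame v m A B) :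
    (A ∪ B)ᶜ.ncard + (small v A B).ncard + (small v B A).ncard ≤
      {i | v i ∈ LL v A B}.ncard := by
  have hd : Disjoint (small v A B) (small v B A) := by
    refine Set.disjoint_left.2 fun i hi hi' => ?_
    exact Set.disjoint_left.1 hF.svec.disjoint hi.1 hi'.1
  have hd2 : Disjoint (A ∪ B)ᶜ (small v A B ∪ small v B A) := by
    refine Set.disjoint_left.2 fun i hi hi' => hi ?_
    rcases hi' with h | h
    · exact Or.inl h.1
    · exact Or.inr h.1
  rw [add_assoc, ← Set.ncard_union_eq hd, ← Set.ncard_union_eq hd2]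
  refine Set.ncard_le_ncard ?_ (Set.toFinite _)
  rintro i (hi | hi | hi)
  · exact hF.zero (fun h => hi (Or.inl h)) (fun h => hi (Or.inr h))
  · exact hi.2
  · have := hi.2
    rwa [LL_comm] at this

/-- if there are many zero elements then both sides of a maximal frame are large. -/
theorem MaxFrame.big_side [Nonempty ι] (hF : MaxFrame v m A B) {p q : ℕ}
    (hfc : ∀ G : Submodule ℝ E, finrank ℝ G ≤ p → {i | v i ∈ G}.ncard ≤ q + finrank ℝ G)
    (hN : q + m + finrank ℝ E + 1 ≤ Fintype.card ι) : p + 1 ≤ A.ncard := by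
  by_contra hcon
  have h1 := hfc (sp v A) (by rw [finrank_sp_eq hF.indA]; omega)
  rw [finrank_sp_eq hF.indA] at h1
  have h2 : A ∪ (A ∪ B)ᶜ ⊆ {i | v i ∈ sp v A} := by
    rintro i (hi | hi)
    · exact mem_sp hi
    · exact (hF.zero (fun h => hi (Or.inl h)) (fun h => hi (Or.inr h))).1
  have h3 := Set.ncard_le_ncard h2 (Set.toFinite _)
  have hd : Disjoint A (A ∪ B)ᶜ := by
    refine Set.disjoint_left.2 fun i hi hi' => hi' (Or.inl hi)
  rw [Set.ncard_union_eq hd] at h3
  have h4 := hF.compl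
  omega

/-- an exit exists if `L` has fewer than `m` small elements. -/
theorem MaxFrame.exists_exit' [Nonempty ι] (hF : MaxFrame v m A B)
    (hsm : (small v A B).ncard + (small v B A).ncard + 1 ≤ m) :
    (∃ t ∈ A, MaxFrame v m (A \ {t}) (insert t B)) ∨
      (∃ t ∈ B, MaxFrame v m (insert t A) (B \ {t})) := by
  classical
  obtain ⟨s, hs⟩ := exists_isCoord hF.indA hF.indB hF.svec.disjoint
  let J : Set ι := small v A B ∪ small v B A
  have hJ : J.ncard ≤ (small v A B).ncard + (small v B A).ncard := Set.ncard_union_le _ _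
  -- a nonzero vector of `L` on which the small coordinates vanish
  obtain ⟨u, hu0, hu⟩ : ∃ u : LL v A B, u ≠ 0 ∧ ∀ j ∈ J, s j (u : E) = 0 := by
    let Φ : LL v A B →ₗ[ℝ] (J → ℝ) := LinearMap.pi fun j => (s j).comp (LL v A B).subtype
    have h1 : LinearMap.ker Φ ≠ ⊥ := by
      intro h
      have h2 := LinearMap.finrank_le_finrank_of_injective (LinearMap.ker_eq_bot.1 h)
      have h3 : Fintype.card J = J.ncard := by
        rw [← Nat.card_eq_fintype_card]; rfl
      rw [Module.finrank_fintype_fun_eq_card, hF.rank, h3] at h2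
      omega
    obtain ⟨u, hu, hu0⟩ := Submodule.exists_mem_ne_zero_of_ne_bot h1
    exact ⟨u, hu0, fun j hj => congrFun hu ⟨j, hj⟩⟩
  have huL : (u : E) ∈ LL v A B := u.2
  have hu0' : (u : E) ≠ 0 := fun h0 => hu0 (Subtype.ext h0)
  -- some coordinate is not zero
  obtain ⟨i, hiA, hi⟩ : ∃ i ∈ A, s i (u : E) ≠ 0 := by
    by_contra hcon
    push Not at hcon
    obtain ⟨a, ha, hsa, hax⟩ := hs.repr huL.1
    apply hu0'
    rw [← hsa]
    refine Finset.sum_eq_zero fun i _ => ?_
    by_cases hi : i ∈ A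
    · rw [hax i hi, hcon i hi, zero_smul]
    · rw [ha i hi, zero_smul]
  have key : ∀ w : E, w ∈ LL v A B → (∀ j ∈ J, s j w = 0) → s i w < 0 →
      (∃ t ∈ A, MaxFrame v m (A \ {t}) (insert t B)) ∨
      (∃ t ∈ B, MaxFrame v m (insert t A) (B \ {t})) := by
    intro w hw hwJ hwi
    obtain ⟨t, -, -, ht⟩ := hF.exit hs hw (Or.inl ⟨i, hiA, hwi⟩)
      (fun j hj => (hwJ j (Or.inl hj)).ge) (fun j hj => (hwJ j (Or.inr hj)).ge)
    rcases ht with ⟨h1, -, h3⟩ | ⟨h1, -, h3⟩
    · exact Or.inl ⟨t, h1, h3⟩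
    · exact Or.inr ⟨t, h1, h3⟩
  rcases lt_or_gt_of_ne hi with h | h
  · exact key u huL hu h
  · exact key (-u) (Submodule.neg_mem _ huL) (fun j hj => by rw [map_neg, hu j hj, neg_zero])
      (by rw [map_neg]; linarith)

/-- the core of the step (U). -/
theorem MaxFrame.dim_ge [Nonempty ι] (hF : MaxFrame v m A B) {p q : ℕ}
    (hfc : ∀ G : Submodule ℝ E, finrank ℝ G ≤ p → {i | v i ∈ G}.ncard ≤ q + finrank ℝ G)
    (hmp : m ≤ p) (hN : q + m + finrank ℝ E + 1 ≤ Fintype.card ι) :
    2 * p + 3 ≤ finrank ℝ E + m := by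
  have hA := hF.big_side hfc hN
  have hB := hF.symm.big_side hfc hN
  have hcard := hF.card
  by_contra hcon
  have hA' : A.ncard = p + 1 := by omega
  have hB' : B.ncard = p + 1 := by omega
  have h1 := hF.ncard_L'
  have h2 := hfc (LL v A B) (by rw [hF.rank]; exact hmp)
  rw [hF.rank] at h2
  have h3 := hF.compl
  rcases hF.exists_exit' (by omega) with ⟨t, ht, hF'⟩ | ⟨t, ht, hF'⟩
  · have h4 := hF'.big_side hfc hN
    rw [Set.ncard_sdiff_singleton_of_mem ht] at h4
    omega
  · have h4 := hF'.symm.big_side hfc hN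
    rw [Set.ncard_sdiff_singleton_of_mem ht] at h4
    omega

/-- the elements in a subspace of the quotient. -/
theorem quot_fc (F : Submodule ℝ E) {r q : ℕ}
    (hfc : ∀ G : Submodule ℝ E, finrank ℝ G ≤ r → {i | v i ∈ G}.ncard ≤ q + finrank ℝ G)
    (G : Submodule ℝ (E ⧸ F)) (hG : finrank ℝ G + finrank ℝ F ≤ r) :
    {i | (F.mkQ ∘ v) i ∈ G}.ncard ≤ (q + finrank ℝ F) + finrank ℝ G := by
  have h0 : finrank ℝ ↥(G.comap F.mkQ) = finrank ℝ G + finrank ℝ F := by
    have h1 := LinearMap.finrank_range_add_finrank_ker (F.mkQ.domRestrict (G.comap F.mkQ))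
    have h2 : LinearMap.range (F.mkQ.domRestrict (G.comap F.mkQ)) = G := by
      rw [LinearMap.range_domRestrict, Submodule.map_comap_eq_of_surjective
        (Submodule.mkQ_surjective F)]
    have hle : F ≤ G.comap F.mkQ := by
      intro x hx
      have : F.mkQ x = 0 := by rw [← LinearMap.mem_ker, Submodule.ker_mkQ]; exact hx
      rw [Submodule.mem_comap, this]
      exact zero_mem _
    have h3 : finrank ℝ (LinearMap.ker (F.mkQ.domRestrict (G.comap F.mkQ))) =
        finrank ℝ F := by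
      have h4 : LinearMap.ker (F.mkQ.domRestrict (G.comap F.mkQ)) =
          F.comap (G.comap F.mkQ).subtype := by
        ext x
        rw [LinearMap.mem_ker, Submodule.mem_comap, LinearMap.domRestrict_apply,
          ← LinearMap.mem_ker, Submodule.ker_mkQ]
        rfl
      rw [h4]
      exact (Submodule.comapSubtypeEquivOfLe hle).finrank_eq
    rw [h2, h3] at h1
    exact h1.symm
  have h1 := hfc (G.comap F.mkQ) (by omega)
  rw [h0] at h1
  have h2 : {i | (F.mkQ ∘ v) i ∈ G} = {i | v i ∈ G.comap F.mkQ} := rfl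
  rw [h2]
  omega

/-- **the step (U).** -/
theorem KL [Nonempty ι] {k r : ℕ} (hc : Cosimple v)
    (hfc : ∀ G : Submodule ℝ E, finrank ℝ G ≤ r → {i | v i ∈ G}.ncard ≤ k + finrank ℝ G)
    (hkr : k ≤ r) (hD : finrank ℝ E + k < 2 * r + 3)
    (hN : finrank ℝ E + 2 * k ≤ Fintype.card ι + 1)
    (F : Submodule ℝ E) (hF2 : 2 ≤ finrank ℝ F) (hFk : finrank ℝ F ≤ k)
    (hb : Bdd (F.mkQ ∘ v) (k - finrank ℝ F)) : False := by
  obtain ⟨m, A, B, hF⟩ := exists_maxFrame (hc.comp (Submodule.mkQ_surjective F))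
  have hm : m ≤ k - finrank ℝ F := by rw [← hF.rank]; exact hb _ _ hF.svec
  have hq := Submodule.finrank_quotient_add_finrank F
  have h1 := hF.dim_ge (p := r - finrank ℝ F) (q := k + finrank ℝ F)
    (fun G hG => quot_fc F hfc G (by omega)) (by omega) (by omega)
  omega

end H15
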