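import Pool.Agent.H97.DV.V

/-!
(KL) from (V): if a flat `F` adds its rank to every signed vector of the quotient, then (V) in the
quotient, pulled back, gives a flat of rank at most `m` and of large nullity.
-/

set_option linter.unusedSectionVars false

open Module Submodule

namespace H15

variable {ι : Type*} [Fintype ι] {E : Type*} [AddCommGroup E] [Module ℝ E]
  [FiniteDimensional ℝ E]
variable {v : ι → E} {m : ℕ}

theorem finrank_comap_mkQ (F : Submodule ℝ E) (G : Submodule ℝ (E ⧸ F)) :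
    finrank ℝ ↥(G.comap F.mkQ) = finrank ℝ G + finrank ℝ F := by
  have h1 := LinearMap.finrank_range_add_finrank_ker (F.mkQ.domRestrict (G.comap F.mkQ))
  have h2 : LinearMap.range (F.mkQ.domRestrict (G.comap F.mkQ)) = G := by
    rw [LinearMap.range_domRestrict, Submodule.map_comap_eq_of_surjective
      (Submodule.mkQ_surjective F)]
  have hle : F ≤ G.comap F.mkQ := by
    intro x hx
    have : F.mkQ x = 0 := by rw [← LinearMap.mem_ker, Submodule.ker_mkQ]; exact hx
    rw [Submodule.mem_comap, this]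
    exact zero_mem _
  have h3 : finrank ℝ (LinearMap.ker (F.mkQ.domRestrict (G.comap F.mkQ))) = finrank ℝ F := by
    have h4 : LinearMap.ker (F.mkQ.domRestrict (G.comap F.mkQ)) =
        F.comap (G.comap F.mkQ).subtype := by
      ext x
      rw [LinearMap.mem_ker, Submodule.mem_comap, LinearMap.domRestrict_apply,
        ← LinearMap.mem_ker, Submodule.ker_mkQ]
      rfl
    rw [h4]
    exact (Submodule.comapSubtypeEquivOfLe hle).finrank_eq
  rw [h2, h3] at h1
  exact h1.symm

/-- **(V)** in a quotient, pulled back. -/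
theorem exists_flat_quot [Nonempty ι] (hc : Cosimple v) (F : Submodule ℝ E)
    (hF : ∀ P Q : Set ι, SVec (F.mkQ ∘ v) P Q →
      finrank ℝ F + finrank ℝ (LL (F.mkQ ∘ v) P Q) ≤ m) :
    ∃ G : Submodule ℝ E, F ≤ G ∧ finrank ℝ G ≤ m ∧
      Fintype.card ι + finrank ℝ G + finrank ℝ F ≤
        finrank ℝ E + m + {i | v i ∈ G}.ncard := by
  have h0 := hF ∅ ∅ svec_empty
  have hb : Bdd (F.mkQ ∘ v) (m - finrank ℝ F) := by
    intro P Q hPQ
    have := hF P Q hPQ
    omega
  obtain ⟨G, hG, hcard⟩ := Pool.Agent.H97.DV.exists_flat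
    (hc.comp (Submodule.mkQ_surjective F)) hb
  have h1 := finrank_comap_mkQ F G
  have h2 := Submodule.finrank_quotient_add_finrank F
  refine ⟨G.comap F.mkQ, ?_, ?_, ?_⟩
  · intro x hx
    have : F.mkQ x = 0 := by rw [← LinearMap.mem_ker, Submodule.ker_mkQ]; exact hx
    rw [Submodule.mem_comap, this]
    exact zero_mem _
  · omega
  · have h3 : {i | v i ∈ G.comap F.mkQ} = {i | (F.mkQ ∘ v) i ∈ G} := rfl
    rw [h3]
    omega

/-- **(KL)** in the form of the hypothesis `hkl` of `H30.DV.case_one`, without any restriction. -/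
theorem kl_V [Nonempty ι] {k : ℕ} (hc : Cosimple v)
    (hN : finrank ℝ E + 2 * k ≤ Fintype.card ι + 1)
    (hfc : ∀ G : Submodule ℝ E, finrank ℝ G ≤ k → {i | v i ∈ G}.ncard ≤ k + finrank ℝ G)
    (G : Submodule ℝ E) (h2 : 2 ≤ finrank ℝ G)
    (hG : ∀ P Q : Set ι, SVec (G.mkQ ∘ v) P Q →
      finrank ℝ G + finrank ℝ (LL (G.mkQ ∘ v) P Q) ≤ k) : False := by
  obtain ⟨G', -, h3, h4⟩ := exists_flat_quot hc G hG
  have h5 := hfc G' h3
  omega

end H15
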